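import Pool.Agent.H52.MG.Main
import Pool.Agent.H52.MG.FINAL

/-!
# Global rigidity of squares of graphs in three dimensional space

For every finite graph `G` and every generic `p` the framework `(G², p)` in three dimensional
space is globally rigid if and only if either `G` has at most four vertices and `G²` is complete,
or `G²` is 4-connected and for every edge `e` of the multigraph `5 G'` the multigraph `5 G' - e`
contains six edge-disjoint spanning trees, where `G'` is obtained from `G` by deleting the
vertices of degree one.
-/

set_option autoImplicit false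

namespace Pool.Agent.Results.MP_90f90f_co.SquareGlobalRigidity

/-- The square `G²` of a graph: two different vertices are adjacent when their distance in `G`
is at most two. -/
def square {V : Type} (G : SimpleGraph V) : SimpleGraph V where
  Adj u w := u ≠ w ∧ (G.Adj u w ∨ ∃ z, G.Adj u z ∧ G.Adj z w)
  symm := ⟨fun _ _ h => ⟨h.1.symm, h.2.elim (fun k => Or.inl k.symm)
    (fun ⟨z, k⟩ => Or.inr ⟨z, k.2.symm, k.1.symm⟩)⟩⟩
  loopless := ⟨fun _ h => h.1 rfl⟩

/-- The configuration `p` is generic: its coordinates are algebraically independent over the
rationals. -/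
def IsGeneric {V : Type} (p : V → EuclideanSpace ℝ (Fin 3)) : Prop :=
  AlgebraicIndependent ℚ (fun x : V × Fin 3 => p x.1 x.2)

/-- The framework `(H, p)` is globally rigid: every framework `(H, q)` with the same edge
lengths has the same distances between all pairs of vertices. -/
def IsGloballyRigid {V : Type} (H : SimpleGraph V) (p : V → EuclideanSpace ℝ (Fin 3)) : Prop :=
  ∀ q : V → EuclideanSpace ℝ (Fin 3),
    (∀ u w, H.Adj u w → dist (q u) (q w) = dist (p u) (p w)) →
      ∀ u w, dist (q u) (q w) = dist (p u) (p w)

/-- `H` is 4-connected: it has at least five vertices and it remains connected if any at most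
three vertices are deleted. -/
def IsFourConnected {V : Type} [Fintype V] (H : SimpleGraph V) : Prop :=
  5 ≤ Fintype.card V ∧ ∀ S : Finset V, S.card ≤ 3 → (H.induce {v | v ∉ S}).Connected

/-- The graph `G'` obtained from `G` by deleting all vertices of degree one. -/
def withoutLeaves {V : Type} (G : SimpleGraph V) :
    SimpleGraph {v : V | (G.neighborSet v).ncard ≠ 1} :=
  G.induce {v : V | (G.neighborSet v).ncard ≠ 1}

/-- The edges of the multigraph `m H`: every edge `e` of `H` has the `m` parallel copies
`(e, 0), ..., (e, m - 1)`. -/
def multipleEdges {V : Type} (m : ℕ) (H : SimpleGraph V) : Set (Sym2 V × Fin m) :=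
  {x | x.1 ∈ H.edgeSet}

/-- `T` is the edge set of a spanning tree of the vertex set `V`: it contains at most one of the
parallel copies of each edge, and the underlying simple graph on `V` is a tree. -/
def IsSpanningTree {V : Type} {m : ℕ} (T : Set (Sym2 V × Fin m)) : Prop :=
  Set.InjOn Prod.fst T ∧ (SimpleGraph.fromEdgeSet (Prod.fst '' T)).IsTree

/-- The multigraph with vertex set `V` and edge set `E` contains `k` pairwise edge-disjoint
spanning trees. -/
def HasDisjointSpanningTrees {V : Type} {m : ℕ} (k : ℕ) (E : Set (Sym2 V × Fin m)) : Prop :=
  ∃ T : Fin k → Set (Sym2 V × Fin m), (∀ i, T i ⊆ E ∧ IsSpanningTree (T i)) ∧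
    ∀ i j, i ≠ j → Disjoint (T i) (T j)

/-- **Characterisation of the graphs whose square is generically globally rigid in three
dimensional space.** -/
theorem result {V : Type} [Fintype V] (G : SimpleGraph V) (p : V → EuclideanSpace ℝ (Fin 3))
    (hp : IsGeneric p) :
    IsGloballyRigid (square G) p ↔
      (Fintype.card V ≤ 4 ∧ square G = ⊤) ∨
      (IsFourConnected (square G) ∧
        ∀ e ∈ multipleEdges 5 (withoutLeaves G),
          HasDisjointSpanningTrees 6 (multipleEdges 5 (withoutLeaves G) \ {e})) := by
  obtain ⟨hF, h1, h2⟩ := Pool.Agent.H52.MG.final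
  exact Pool.Agent.H52.MG.Clean.main hF h1 h2 G p hp

end Pool.Agent.Results.MP_90f90f_co.SquareGlobalRigidity
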